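import Pool.Agent.H30.SY.Stm

/-! Project SY, item 11 (helper94): measurability of the asymmetry event. -/

set_option autoImplicit false

open MeasureTheory

namespace Pool.Agent.H94.SY

open Q70.Fp
open Pool.Agent.H30.SY

theorem t_MSB : S_MSB := by
  intro t r
  have e : {w : Ed → ℝ | SB (pw w) t r} =
      ⋃ v : ℤ × ℤ, ({w : Ed → ℝ | TT (pw w) 0 v ≤ t} ∩
        ⋂ y : ℤ × ℤ, ({w : Ed → ℝ | TT (pw w) 0 y ≤ t}ᶜ ∪ {_w : Ed → ℝ | r < (dd 0 (y + v) : ℝ)})) := by
    ext w
    simp only [SB, Set.mem_ofPred_eq, Set.mem_iUnion, Set.mem_inter_iff, Set.mem_iInter,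
      Set.mem_union, Set.mem_compl_iff]
    constructor
    · rintro ⟨v, h1, h2⟩
      refine ⟨v, h1, fun y => ?_⟩
      by_cases h3 : TT (pw w) 0 y ≤ t
      · exact Or.inr (h2 y h3)
      · exact Or.inl h3
    · rintro ⟨v, h1, h2⟩
      refine ⟨v, h1, fun y hy => ?_⟩
      rcases h2 y with h3 | h3
      · exact absurd hy h3
      · exact h3
  rw [e]
  refine MeasurableSet.iUnion fun v => ?_
  refine (measurableSet_le (measurable_TT 0 v) measurable_const).inter ?_
  refine MeasurableSet.iInter fun y => ?_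
  exact (measurableSet_le (measurable_TT 0 y) measurable_const).compl.union
    (MeasurableSet.const _)

end Pool.Agent.H94.SY
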