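import Pool.Agent.H30.SY.Stm2

/-! Project SY, item 13 (helper94): one step. -/

set_option autoImplicit false

open MeasureTheory

namespace Pool.Agent.H94.SY

open Q70.Fp
open Pool.Agent.H30.SY

theorem t_ONE : S_ONE := by
  intro v t r R hr
  have hsub : {w | TT (pw w) 0 (-v) ≤ t ∧ t + 3 * (R:ℝ) < TT (pw w) 0 v} ⊆
      {w | SB (pw w) t r} ∪ ⋃ u ∈ ball R 0, {w | 3 * (R:ℝ) ≤ TT (pw w) (u + v) v} := by
    rintro w ⟨h1, h2⟩
    by_cases h3 : SB (pw w) t r
    · exact Or.inl h3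
    · right
      unfold SB at h3
      push Not at h3
      obtain ⟨y, hy, hyr⟩ := h3 (-v) h1
      have h4 : dd 0 (y + -v) ≤ R := by exact_mod_cast hyr.trans hr
      simp only [Set.mem_iUnion, exists_prop]
      refine ⟨y + -v, mem_ball.2 h4, ?_⟩
      have h5 := TT_tri (pw_nonneg w) 0 y v
      show 3 * (R:ℝ) ≤ TT (pw w) (y + -v + v) v
      rw [neg_add_cancel_right]
      linarith
  have h1 : nu.real (⋃ u ∈ ball R 0, {w | 3 * (R:ℝ) ≤ TT (pw w) (u + v) v}) ≤
      (2 * (R:ℝ) + 1) ^ 2 * (1 / 2) ^ R := by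
    refine (measureReal_biUnion_finset_le _ _).trans ?_
    have h2 : ∀ u ∈ ball R 0, nu.real {w | 3 * (R:ℝ) ≤ TT (pw w) (u + v) v} ≤ (1 / 2) ^ R := by
      intro u hu
      apply straight
      rw [mem_ball] at hu
      have h3 := dd_add u 0 v
      rw [zero_add] at h3
      rw [h3, dd_comm]
      exact hu
    refine (Finset.sum_le_sum h2).trans ?_
    rw [Finset.sum_const, nsmul_eq_mul]
    apply mul_le_mul_of_nonneg_right _ (by positivity)
    exact_mod_cast card_ball R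
  calc nu.real {w | TT (pw w) 0 (-v) ≤ t ∧ t + 3 * (R:ℝ) < TT (pw w) 0 v} ≤
        nu.real ({w | SB (pw w) t r} ∪ ⋃ u ∈ ball R 0, {w | 3 * (R:ℝ) ≤ TT (pw w) (u + v) v}) :=
        measureReal_mono hsub (measure_ne_top nu _)
    _ ≤ nu.real {w | SB (pw w) t r} +
        nu.real (⋃ u ∈ ball R 0, {w | 3 * (R:ℝ) ≤ TT (pw w) (u + v) v}) :=
        measureReal_union_le _ _
    _ ≤ _ := by gcongr

end Pool.Agent.H94.SY
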